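import Pool.Agent.J4H67.OS.E

/-!
# Lower bounds and repulsion imply the pair correlation conjecture `F(α, T) → 1` in mean

Assume the Riemann hypothesis and let `F(α, T)` be Montgomery's function.  Suppose that
`liminf ∫_a^b F(α, T) dα ≥ ∫_a^b min(α, 1) dα` for all windows with `a ≥ c`, for some `c < 1`, and that
the number of pairs of zeros at a distance of at most `β` times the mean spacing is at most
`(1 + o(β)) (T/2π) log T` (weak repulsion).  Then `∫_a^b F(α, T) dα → ∫_a^b min(α, 1) dα` for all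
`0 < a < b`.  `T` may tend to infinity along any sequence (or filter).

Proof.  The Fejér average `∫ (F(α, T) - 1) max (1 - |α| / A) 0 dα` is a sum over the pairs of
zeros with a kernel of size `min(A, 1 / (A y²))` at the distance `y`, in units of the mean spacing.  The
pairs with `y` beyond a small constant contribute `O(1 / A)`, and a dyadic decomposition together with
repulsion shows that the other pairs contribute `o(1)` as `A → ∞`.  By Montgomery's theorem the integral
of `F - 1` over `[-1, 1]` is `o(1)`, so that a positive excess of `F - 1` on a window beyond `1` has to be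
balanced by a deficit on other windows beyond `1`.
-/

open MeasureTheory Filter Topology

namespace Pool.Agent.Results.MP_00e05b_nt.LowerBoundsRepulsion

/-- the nontrivial zeros of `ζ` with ordinate in `(0, T]` -/
def zeros (T : ℝ) : Set ℂ :=
  {s : ℂ | 0 < s.re ∧ s.re < 1 ∧ 0 < s.im ∧ s.im ≤ T ∧ riemannZeta s = 0}

/-- the multiplicity of `s` as a zero of `ζ` -/
noncomputable def mult (s : ℂ) : ℕ := analyticOrderNatAt riemannZeta s

/-- Montgomery's function `F(α, T)`:
`((T/2π) log T)⁻¹ ∑_γ ∑_γ' T ^ (iα(γ - γ')) w(γ - γ')`, `w(u) = 4 / (4 + u²)`, the zeros being counted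
with multiplicity -/
noncomputable def F (α T : ℝ) : ℂ :=
  ((T / (2 * Real.pi) * Real.log T : ℝ) : ℂ)⁻¹ *
    ∑ᶠ s ∈ zeros T, ∑ᶠ s' ∈ zeros T, (mult s : ℂ) * (mult s' : ℂ) *
      ((T : ℂ) ^ (Complex.I * α * ((s.im - s'.im : ℝ) : ℂ)) *
        (4 / (4 + ((s.im - s'.im : ℝ) : ℂ) ^ 2)))

/-- the number of ordered pairs of zeros, counted with multiplicity, with
`|γ - γ'| ≤ 2πβ / log T`, the pairs with `γ = γ'` included -/
noncomputable def pairs (T β : ℝ) : ℕ :=
  ∑ᶠ s ∈ zeros T, ∑ᶠ s' ∈ {s' : ℂ | s' ∈ zeros T ∧ |s.im - s'.im| ≤ 2 * Real.pi * β / Real.log T},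
    mult s * mult s'

/-- lower bounds for the averages of `F` over the windows in `[c, ∞)`, as `T` tends to infinity
along `l` -/
def LowerHalf (l : Filter ℝ) (c : ℝ) : Prop := ∀ a b : ℝ, c ≤ a → a < b → ∀ ε : ℝ, 0 < ε →
  ∀ᶠ T in l, (∫ α in a..b, min α 1) - ε ≤ ∫ α in a..b, (F α T).re

/-- weak repulsion: for every `ε > 0` and all small `β > 0` the number of pairs is at most
`(1 + εβ) (T/2π) log T` in the limit -/
def WeakRepulsion (l : Filter ℝ) : Prop := ∀ ε : ℝ, 0 < ε → ∃ β₀ : ℝ, 0 < β₀ ∧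
  ∀ β : ℝ, 0 < β → β ≤ β₀ → ∀ᶠ T in l,
    (pairs T β : ℝ) ≤ (1 + ε * β) * (T / (2 * Real.pi) * Real.log T)

open Pool.Agent.J4H67.OS Pool.Agent.Y744 H370

lemma zeros_finite (T : ℝ) : (zeros T).Finite := H370.zeta_zeros_finite T

lemma Zt_eq (T : ℝ) : (zeros_finite T).toFinset = Zt T := rfl

lemma term_eq {T : ℝ} (hT : 0 < T) (α d : ℝ) :
    (T : ℂ) ^ (Complex.I * α * (d : ℂ)) * (4 / (4 + (d : ℂ) ^ 2)) =
      ((W d * Real.cos (Real.log T * d * α) : ℝ) : ℂ) +
        ((W d * Real.sin (Real.log T * d * α) : ℝ) : ℂ) * Complex.I := by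
  have hT0 : (T : ℂ) ≠ 0 := by exact_mod_cast hT.ne'
  rw [Complex.cpow_def_of_ne_zero hT0, ← Complex.ofReal_log hT.le]
  have e : (Real.log T : ℂ) * (Complex.I * α * (d : ℂ)) =
      ((Real.log T * d * α : ℝ) : ℂ) * Complex.I := by push_cast; ring
  rw [e, Complex.exp_mul_I, ← Complex.ofReal_cos, ← Complex.ofReal_sin]
  unfold W
  push_cast
  ring

lemma F_eq {T : ℝ} (hT : 0 < T) (α : ℝ) : F α T = ((Fr T α : ℝ) : ℂ) +
    (((Xf T)⁻¹ * ∑ s ∈ Zt T, ∑ s' ∈ Zt T, mz s * mz s' *
      (W (s.im - s'.im) * Real.sin (Real.log T * (s.im - s'.im) * α)) : ℝ) : ℂ) * Complex.I := by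
  unfold F Fr
  have hX : T / (2 * Real.pi) * Real.log T = Xf T := by unfold Xf; ring
  rw [hX, finsum_mem_eq_finite_toFinset_sum _ (zeros_finite T), Zt_eq]
  push_cast
  rw [mul_assoc, ← mul_add]
  congr 1
  rw [Finset.sum_mul, ← Finset.sum_add_distrib]
  refine Finset.sum_congr rfl fun s _ => ?_
  rw [finsum_mem_eq_finite_toFinset_sum _ (zeros_finite T), Zt_eq, Finset.sum_mul,
    ← Finset.sum_add_distrib]
  refine Finset.sum_congr rfl fun s' _ => ?_
  rw [← Complex.ofReal_sub, term_eq hT]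
  have e1 : ((mult s : ℕ) : ℂ) = ((mz s : ℝ) : ℂ) := by
    unfold mz H370.mult mult
    push_cast
    rfl
  have e2 : ((mult s' : ℕ) : ℂ) = ((mz s' : ℝ) : ℂ) := by
    unfold mz H370.mult mult
    push_cast
    rfl
  rw [e1, e2]
  push_cast
  ring

lemma sin_sum (T α : ℝ) : ∑ s ∈ Zt T, ∑ s' ∈ Zt T, mz s * mz s' *
      (W (s.im - s'.im) * Real.sin (Real.log T * (s.im - s'.im) * α)) = 0 := by
  have h : ∑ s ∈ Zt T, ∑ s' ∈ Zt T, mz s * mz s' *
      (W (s.im - s'.im) * Real.sin (Real.log T * (s.im - s'.im) * α)) =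
      -∑ s ∈ Zt T, ∑ s' ∈ Zt T, mz s * mz s' *
      (W (s.im - s'.im) * Real.sin (Real.log T * (s.im - s'.im) * α)) := by
    conv_lhs => rw [Finset.sum_comm]
    rw [← Finset.sum_neg_distrib]
    refine Finset.sum_congr rfl fun s _ => ?_
    rw [← Finset.sum_neg_distrib]
    refine Finset.sum_congr rfl fun s' _ => ?_
    have e1 : Real.log T * (s'.im - s.im) * α = -(Real.log T * (s.im - s'.im) * α) := by ring
    have e2 : W (s'.im - s.im) = W (s.im - s'.im) := by
      unfold W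
      congr 2
      ring
    rw [e1, e2, Real.sin_neg]
    ring
  linarith

/-- `F` is real -/
lemma F_ofReal {T : ℝ} (hT : 0 < T) (α : ℝ) : F α T = ((Fr T α : ℝ) : ℂ) := by
  rw [F_eq hT, sin_sum]
  simp

lemma F_re {T : ℝ} (hT : 0 < T) (α : ℝ) : (F α T).re = Fr T α := by
  rw [F_ofReal hT, Complex.ofReal_re]

lemma pairs_eq {T : ℝ} (hT : 1 < T) (β : ℝ) : (pairs T β : ℝ) = Xf T * Aa T β := by
  classical
  have hlog : 0 < Real.log T := Real.log_pos hT
  have hpi := Real.pi_pos
  have hX := Xf_pos hT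
  unfold pairs Aa PC
  rw [← mul_assoc, mul_inv_cancel₀ hX.ne', one_mul,
    finsum_mem_eq_finite_toFinset_sum _ (zeros_finite T), Zt_eq]
  push_cast
  refine Finset.sum_congr rfl fun s _ => ?_
  have hfin : {s' : ℂ | s' ∈ zeros T ∧ |s.im - s'.im| ≤ 2 * Real.pi * β / Real.log T}.Finite :=
    (zeros_finite T).subset fun _ h => h.1
  rw [finsum_mem_eq_finite_toFinset_sum _ hfin]
  push_cast
  have e : ∀ s' : ℂ, mz s * mz s' * Set.indicator {x : ℝ | |x| ≤ β} (fun _ => (1 : ℝ)) (dd T s s') =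
      if |dd T s s'| ≤ β then mz s * mz s' else 0 := by
    intro s'
    by_cases h : |dd T s s'| ≤ β
    · rw [if_pos h, Set.indicator_of_mem (show dd T s s' ∈ {x : ℝ | |x| ≤ β} from h), mul_one]
    · rw [if_neg h, Set.indicator_of_notMem (show dd T s s' ∉ {x : ℝ | |x| ≤ β} from h), mul_zero]
  simp_rw [e]
  rw [← Finset.sum_filter]
  refine Finset.sum_congr ?_ fun s' _ => rfl
  ext s'
  rw [Set.Finite.mem_toFinset, Finset.mem_filter, ← Zt_eq, Set.Finite.mem_toFinset]
  have e1 : |s.im - s'.im| ≤ 2 * Real.pi * β / Real.log T ↔ |dd T s s'| ≤ β := by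
    unfold dd
    rw [abs_div, abs_mul, abs_of_pos hlog, abs_of_pos (show (0 : ℝ) < 2 * Real.pi by positivity),
      div_le_iff₀ (by positivity), le_div_iff₀ hlog]
    constructor
    · intro h; linarith
    · intro h; linarith
  rw [← e1]
  rfl

lemma low_iff {l : Filter ℝ} (hl : l ≤ atTop) {c : ℝ} : LowerHalf l c → ∀ d, LoI l c d := by
  intro h d a b h1 h2 _ ε hε
  filter_upwards [h a b h1 h2 ε hε, hl (eventually_gt_atTop 0)] with T h3 hT
  have e : ∫ α in a..b, (F α T).re = ∫ α in a..b, Fr T α :=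
    intervalIntegral.integral_congr fun α _ => F_re hT α
  rw [e] at h3
  exact h3

lemma conv {l : Filter ℝ} (hl : l ≤ atTop) (hRH : RiemannHypothesis) {c : ℝ} (hc : 0 < c)
    (hc1 : c < 1) (hU : ∀ d, UpI l c d) (hL : ∀ d, LoI l c d) (a b : ℝ) (ha : 0 < a)
    (hab : a < b) : Tendsto (fun T => ∫ α in a..b, (F α T).re) l (𝓝 (∫ α in a..b, min α 1)) := by
  set a' : ℝ := min a (c / 2) with ha'
  have ha0 : 0 < a' := lt_min ha (by linarith)
  have hac : a' < c := (min_le_right _ _).trans_lt (by linarith)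
  have hUa := ((UpI_low hRH ha0 hac hc1.le (GU_lt hRH hc hc1)).mono hl).glue (hU b)
  have hLa := ((LoI_low hRH ha0 hc1).mono hl).glue (hL b)
  rw [Metric.tendsto_nhds]
  intro ε hε
  filter_upwards [hUa a b (min_le_left _ _) hab le_rfl (ε / 2) (by positivity),
    hLa a b (min_le_left _ _) hab le_rfl (ε / 2) (by positivity),
    hl (eventually_gt_atTop 0)] with T h1 h2 hT
  have e : ∫ α in a..b, (F α T).re = ∫ α in a..b, Fr T α :=
    intervalIntegral.integral_congr fun α _ => F_re hT α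
  have e2 : ∫ α in a..b, min α 1 = ∫ α in a..b, mm α := rfl
  rw [e, e2, Real.dist_eq, abs_lt]
  constructor <;> linarith

/-- **The lower half of the pair correlation conjecture for `F(α, T)` and weak repulsion imply the
conjecture in mean, assuming the Riemann hypothesis.** -/
theorem result (hRH : RiemannHypothesis) (l : Filter ℝ) (hl : l ≤ atTop) (c : ℝ) (hc : 0 < c)
    (hc1 : c < 1) (hL : LowerHalf l c) (hR : WeakRepulsion l) (a b : ℝ) (ha : 0 < a) (hab : a < b) :
    Tendsto (fun T => ∫ α in a..b, (F α T).re) l (𝓝 (∫ α in a..b, min α 1)) := by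
  have hRep : Rep l := by
    intro ε hε
    obtain ⟨β₀, hβ, h⟩ := hR ε hε
    refine ⟨β₀, hβ, fun β h1 h2 => ?_⟩
    filter_upwards [h β h1 h2, hl (eventually_gt_atTop 1)] with T h3 hT
    have hX := Xf_pos hT
    rw [pairs_eq hT, show T / (2 * Real.pi) * Real.log T = Xf T by unfold Xf; ring, mul_comm] at h3
    exact le_of_mul_le_mul_right h3 hX
  exact conv hl hRH hc hc1 (low_rep hRH hl hc hc1 (low_iff hl hL) hRep) (low_iff hl hL) a b ha hab

end Pool.Agent.Results.MP_00e05b_nt.LowerBoundsRepulsion
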