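import Pool.Agent.J4H67.OS.E

/-!
# Upper bounds imply the pair correlation conjecture in the form `F(α, T) → 1`, in mean

Assume the Riemann hypothesis and let `F(α, T)` be Montgomery's function.  Montgomery's theorem gives
`F(α, T) → α` for `0 < α < 1`, and the strong pair correlation conjecture asserts `F(α, T) → 1` for
`α ≥ 1`, so that the expected limit for `α > 0` is `min α 1`.

* Upper bounds are enough: if `limsup ∫_a^b F(α, T) dα ≤ ∫_a^b min(α, 1) dα` for all windows with
  `a ≥ c`, for some `c < 1`, then `∫_a^b F(α, T) dα → ∫_a^b min(α, 1) dα` for all `0 < a < b`.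
* If `F(α, T) ≤ min(α, 1) + o(1)` uniformly for `c ≤ α ≤ A`, for every `A`, then
  `∫_c^A |F(α, T) - min(α, 1)| dα → 0`.
* For a single `A` the `L¹` distance, with a Fejér weight, is at most twice the excess plus `1 / (6 A)`.

`T` may tend to infinity along any sequence (or filter).

Proof.  `F(α, T) - 1` is positive definite up to the atom of the diagonal, so that its average with
the weight `max (1 - |α| / A) 0` is at least `- o(1)`.  By Montgomery's theorem the integral of
`F - 1` over `[-1, 1]` is `o(1)`: the mass `1` of the peak at `0` is balanced by the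
deficit `∫ (1 - |α|) dα = 1`.  Therefore a negative part of `F - 1` beyond `1` must be compensated by a
positive part, up to `O(1 / A)`.
-/

open MeasureTheory Filter Topology

namespace Pool.Agent.Results.MP_00e05b_nt.OneSidedBounds

/-- the nontrivial zeros of `ζ` with ordinate in `(0, T]` -/
def zeros (T : ℝ) : Set ℂ :=
  {s : ℂ | 0 < s.re ∧ s.re < 1 ∧ 0 < s.im ∧ s.im ≤ T ∧ riemannZeta s = 0}

/-- the multiplicity of `s` as a zero of `ζ` -/
noncomputable def mult (s : ℂ) : ℕ := analyticOrderNatAt riemannZeta s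

/-- Montgomery's function `F(α, T)`:
`((T/2π) log T)⁻¹ ∑_γ ∑_γ' T ^ (iα(γ - γ')) w(γ - γ')`, `w(u) = 4 / (4 + u²)`, the zeros being counted
with multiplicity -/
noncomputable def F (α T : ℝ) : ℂ :=
  ((T / (2 * Real.pi) * Real.log T : ℝ) : ℂ)⁻¹ *
    ∑ᶠ s ∈ zeros T, ∑ᶠ s' ∈ zeros T, (mult s : ℂ) * (mult s' : ℂ) *
      ((T : ℂ) ^ (Complex.I * α * ((s.im - s'.im : ℝ) : ℂ)) *
        (4 / (4 + ((s.im - s'.im : ℝ) : ℂ) ^ 2)))

/-- upper bounds for the averages of `F` over the windows in `[c, ∞)`, as `T` tends to infinity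
along `l` -/
def UpperHalf (l : Filter ℝ) (c : ℝ) : Prop := ∀ a b : ℝ, c ≤ a → a < b → ∀ ε : ℝ, 0 < ε →
  ∀ᶠ T in l, ∫ α in a..b, (F α T).re ≤ (∫ α in a..b, min α 1) + ε

open Pool.Agent.J4H67.OS Pool.Agent.Y744 H370

lemma zeros_finite (T : ℝ) : (zeros T).Finite := H370.zeta_zeros_finite T

lemma Zt_eq (T : ℝ) : (zeros_finite T).toFinset = Zt T := rfl

lemma term_eq {T : ℝ} (hT : 0 < T) (α d : ℝ) :
    (T : ℂ) ^ (Complex.I * α * (d : ℂ)) * (4 / (4 + (d : ℂ) ^ 2)) =
      ((W d * Real.cos (Real.log T * d * α) : ℝ) : ℂ) +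
        ((W d * Real.sin (Real.log T * d * α) : ℝ) : ℂ) * Complex.I := by
  have hT0 : (T : ℂ) ≠ 0 := by exact_mod_cast hT.ne'
  rw [Complex.cpow_def_of_ne_zero hT0, ← Complex.ofReal_log hT.le]
  have e : (Real.log T : ℂ) * (Complex.I * α * (d : ℂ)) =
      ((Real.log T * d * α : ℝ) : ℂ) * Complex.I := by push_cast; ring
  rw [e, Complex.exp_mul_I, ← Complex.ofReal_cos, ← Complex.ofReal_sin]
  unfold W
  push_cast
  ring

lemma F_eq {T : ℝ} (hT : 0 < T) (α : ℝ) : F α T = ((Fr T α : ℝ) : ℂ) +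
    (((Xf T)⁻¹ * ∑ s ∈ Zt T, ∑ s' ∈ Zt T, mz s * mz s' *
      (W (s.im - s'.im) * Real.sin (Real.log T * (s.im - s'.im) * α)) : ℝ) : ℂ) * Complex.I := by
  unfold F Fr
  have hX : T / (2 * Real.pi) * Real.log T = Xf T := by unfold Xf; ring
  rw [hX, finsum_mem_eq_finite_toFinset_sum _ (zeros_finite T), Zt_eq]
  push_cast
  rw [mul_assoc, ← mul_add]
  congr 1
  rw [Finset.sum_mul, ← Finset.sum_add_distrib]
  refine Finset.sum_congr rfl fun s _ => ?_
  rw [finsum_mem_eq_finite_toFinset_sum _ (zeros_finite T), Zt_eq, Finset.sum_mul,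
    ← Finset.sum_add_distrib]
  refine Finset.sum_congr rfl fun s' _ => ?_
  rw [← Complex.ofReal_sub, term_eq hT]
  have e1 : ((mult s : ℕ) : ℂ) = ((mz s : ℝ) : ℂ) := by
    unfold mz H370.mult mult
    push_cast
    rfl
  have e2 : ((mult s' : ℕ) : ℂ) = ((mz s' : ℝ) : ℂ) := by
    unfold mz H370.mult mult
    push_cast
    rfl
  rw [e1, e2]
  push_cast
  ring

lemma sin_sum (T α : ℝ) : ∑ s ∈ Zt T, ∑ s' ∈ Zt T, mz s * mz s' *
      (W (s.im - s'.im) * Real.sin (Real.log T * (s.im - s'.im) * α)) = 0 := by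
  have h : ∑ s ∈ Zt T, ∑ s' ∈ Zt T, mz s * mz s' *
      (W (s.im - s'.im) * Real.sin (Real.log T * (s.im - s'.im) * α)) =
      -∑ s ∈ Zt T, ∑ s' ∈ Zt T, mz s * mz s' *
      (W (s.im - s'.im) * Real.sin (Real.log T * (s.im - s'.im) * α)) := by
    conv_lhs => rw [Finset.sum_comm]
    rw [← Finset.sum_neg_distrib]
    refine Finset.sum_congr rfl fun s _ => ?_
    rw [← Finset.sum_neg_distrib]
    refine Finset.sum_congr rfl fun s' _ => ?_
    have e1 : Real.log T * (s'.im - s.im) * α = -(Real.log T * (s.im - s'.im) * α) := by ring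
    have e2 : W (s'.im - s.im) = W (s.im - s'.im) := by
      unfold W
      congr 2
      ring
    rw [e1, e2, Real.sin_neg]
    ring
  linarith

/-- `F` is real -/
lemma F_ofReal {T : ℝ} (hT : 0 < T) (α : ℝ) : F α T = ((Fr T α : ℝ) : ℂ) := by
  rw [F_eq hT, sin_sum]
  simp

lemma F_re {T : ℝ} (hT : 0 < T) (α : ℝ) : (F α T).re = Fr T α := by
  rw [F_ofReal hT, Complex.ofReal_re]

lemma up_iff {l : Filter ℝ} (hl : l ≤ atTop) {c : ℝ} : UpperHalf l c → ∀ d, UpI l c d := by
  intro h d a b h1 h2 _ ε hε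
  filter_upwards [h a b h1 h2 ε hε, hl (eventually_gt_atTop 0)] with T h3 hT
  have e : ∫ α in a..b, (F α T).re = ∫ α in a..b, Fr T α :=
    intervalIntegral.integral_congr fun α _ => F_re hT α
  rw [e] at h3
  exact h3

lemma conv {l : Filter ℝ} (hl : l ≤ atTop) (hRH : RiemannHypothesis) {c : ℝ} (hc : 0 < c)
    (hc1 : c < 1) (hU : ∀ d, UpI l c d) (hL : ∀ d, LoI l c d) (a b : ℝ) (ha : 0 < a)
    (hab : a < b) : Tendsto (fun T => ∫ α in a..b, (F α T).re) l (𝓝 (∫ α in a..b, min α 1)) := by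
  set a' : ℝ := min a (c / 2) with ha'
  have ha0 : 0 < a' := lt_min ha (by linarith)
  have hac : a' < c := (min_le_right _ _).trans_lt (by linarith)
  have hUa := ((UpI_low hRH ha0 hac hc1.le (GU_lt hRH hc hc1)).mono hl).glue (hU b)
  have hLa := ((LoI_low hRH ha0 hc1).mono hl).glue (hL b)
  rw [Metric.tendsto_nhds]
  intro ε hε
  filter_upwards [hUa a b (min_le_left _ _) hab le_rfl (ε / 2) (by positivity),
    hLa a b (min_le_left _ _) hab le_rfl (ε / 2) (by positivity),
    hl (eventually_gt_atTop 0)] with T h1 h2 hT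
  have e : ∫ α in a..b, (F α T).re = ∫ α in a..b, Fr T α :=
    intervalIntegral.integral_congr fun α _ => F_re hT α
  have e2 : ∫ α in a..b, min α 1 = ∫ α in a..b, mm α := rfl
  rw [e, e2, Real.dist_eq, abs_lt]
  constructor <;> linarith

/-- **Upper bounds for Montgomery's function are enough, assuming the Riemann hypothesis.** -/
theorem result (hRH : RiemannHypothesis) :
    -- the upper half implies convergence of all averages
    (∀ l : Filter ℝ, l ≤ atTop → ∀ c : ℝ, 0 < c → c < 1 → UpperHalf l c →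
      ∀ a b : ℝ, 0 < a → a < b →
        Tendsto (fun T => ∫ α in a..b, (F α T).re) l (𝓝 (∫ α in a..b, min α 1))) ∧
    -- the pointwise upper half implies convergence in `L¹`
    (∀ l : Filter ℝ, l ≤ atTop → ∀ c : ℝ, 0 < c → c < 1 →
      (∀ A ε : ℝ, 0 < ε → ∀ᶠ T in l, ∀ α ∈ Set.Icc c A, (F α T).re ≤ min α 1 + ε) →
      ∀ A : ℝ, c ≤ A → Tendsto (fun T => ∫ α in c..A, |(F α T).re - min α 1|) l (𝓝 0)) ∧
    -- the quantitative form, without any hypothesis on `F`
    (∀ c A ε : ℝ, 0 < c → c < 1 → 1 ≤ A → 0 < ε → ∃ T₀ : ℝ, ∀ T : ℝ, T₀ ≤ T →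
      ∫ α in c..A, |(F α T).re - min α 1| * (1 - α / A) ≤
        2 * (∫ α in c..A, max ((F α T).re - min α 1) 0 * (1 - α / A)) + 1 / (6 * A) + ε) := by
  refine ⟨fun l hl c hc hc1 hU a b ha hab => ?_,
    fun l hl c hc hc1 hU A hA => ?_, fun c A ε hc hc1 hA hε => ?_⟩
  · exact conv hl hRH hc hc1 (up_iff hl hU)
      (one_sided hRH hl hc hc1.le (GU_lt hRH hc hc1) (up_iff hl hU)) a b ha hab
  · have hU' : ∀ d ε : ℝ, 0 < ε → ∀ᶠ T in l, ∀ α ∈ Set.Icc c d, Fr T α ≤ mm α + ε := by
      intro d ε hε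
      filter_upwards [hU d ε hε, hl (eventually_gt_atTop 0)] with T h hT α hα
      have := h α hα
      rw [F_re hT] at this
      exact this
    rw [Metric.tendsto_nhds]
    intro ε hε
    filter_upwards [sup_L1 hRH hl hc hc1.le (GU_lt hRH hc hc1) hU' A hA (ε := ε / 2)
      (by positivity), hl (eventually_gt_atTop 0)] with T h hT
    have e : ∫ α in c..A, |(F α T).re - min α 1| = ∫ α in c..A, |Fr T α - mm α| :=
      intervalIntegral.integral_congr fun α _ => by
        show |(F α T).re - min α 1| = |Fr T α - mm α|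
        rw [F_re hT]
        rfl
    have h0 : 0 ≤ ∫ α in c..A, |Fr T α - mm α| :=
      intervalIntegral.integral_nonneg hA fun _ _ => abs_nonneg _
    rw [e, Real.dist_eq, sub_zero, abs_of_nonneg h0]
    linarith
  · obtain ⟨T₀, h⟩ := (quant hRH hc hc1.le (GU_lt hRH hc hc1) hA hε).exists_forall_of_atTop
    refine ⟨max T₀ 1, fun T hT => ?_⟩
    have hT0 : 0 < T := by linarith [(le_max_right T₀ 1).trans hT]
    have h1 := h T ((le_max_left _ _).trans hT)
    have hcA : c ≤ A := by linarith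
    have e1 : ∫ α in c..A, |(F α T).re - min α 1| * (1 - α / A) =
        ∫ α in c..A, |Fr T α - mm α| * RA A α :=
      intervalIntegral.integral_congr fun α hα => by
        rw [Set.uIcc_of_le hcA] at hα
        show |(F α T).re - min α 1| * (1 - α / A) = |Fr T α - mm α| * (1 - |α| / A)
        rw [F_re hT0, abs_of_nonneg (hc.le.trans hα.1)]
        rfl
    have e2 : ∫ α in c..A, max ((F α T).re - min α 1) 0 * (1 - α / A) =
        ∫ α in c..A, max (Fr T α - mm α) 0 * RA A α :=
      intervalIntegral.integral_congr fun α hα => by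
        rw [Set.uIcc_of_le hcA] at hα
        show max ((F α T).re - min α 1) 0 * (1 - α / A) =
          max (Fr T α - mm α) 0 * (1 - |α| / A)
        rw [F_re hT0, abs_of_nonneg (hc.le.trans hα.1)]
        rfl
    rw [e1, e2]
    exact h1

end Pool.Agent.Results.MP_00e05b_nt.OneSidedBounds
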