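import Pool.Agent.J4H67.OS.R3
import Pool.Agent.Results.MP_00e05b_nt.LowerBoundsRepulsion

/-!
# The pair correlation conjecture follows from one-sided bounds for large distances

Assume the Riemann hypothesis.  Let `N_T(β)` be the number of ordered pairs of zeros with
`|γ - γ'| ≤ 2πβ / log T`, divided by `(T/2π) log T`, the pairs `γ = γ'` included.  Montgomery's
conjecture is `N_T(β) → n(β) = 1 + ∫_{-β}^{β} (1 - (sin πu / πu)²) du` for every `β > 0`.

The conjecture is equivalent to each of its halves, for large `β` only and up to an exponentially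
small error: it is enough that for some `C`, `c > 0` and `β₀`, and all `β ≥ β₀`,
`limsup N_T(β) ≤ n(β) + C exp(-c β)`, or that for all `β ≥ β₀`
`liminf N_T(β) ≥ n(β) - C exp(-c β)`.  Nothing is assumed about the small distances.  The
conclusion contains the case `β = 0` (almost all zeros are simple) and the averages
of Montgomery's function `F(α, T)`: `∫_a^b F(α, T) dα → ∫_a^b min(α, 1) dα` for all `0 < a < b`.

Proof.  Let `D` be a limit of `N_T - n`, extended to an odd function.  By Montgomery's theorem the
Fourier transform of `D` vanishes near the origin, hence so does the one of the even function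
`x D(x)`.  A function with such a spectral gap whose negative part is exponentially small vanishes
(the even moments of its positive part are at most those of the negative part, so that both parts
have holomorphic Fourier transforms in a strip, which agree on an interval and therefore everywhere).
The averages of `F` are recovered from the pair counts with the positive weights
`sin⁴(πκt/2) / t³`, for all `κ > 0`, and convexity.
-/

open MeasureTheory Filter Topology

namespace Pool.Agent.Results.MP_00e05b_nt.OneSidedFarOut

open LowerBoundsRepulsion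

/-- the expected limit of the number of pairs, divided by `(T/2π) log T` -/
noncomputable def gue (β : ℝ) : ℝ :=
  1 + ∫ u in (-β)..β, (1 - (Real.sin (Real.pi * u) / (Real.pi * u)) ^ 2)

/-- Montgomery's pair correlation conjecture, as `T` tends to infinity along `l` -/
def PairCorrelation (l : Filter ℝ) : Prop := ∀ β : ℝ, 0 ≤ β →
  Tendsto (fun T => (pairs T β : ℝ) / (T / (2 * Real.pi) * Real.log T)) l (𝓝 (gue β))

/-- one half of the conjecture, for large `β` only and up to an exponentially small error: upper
bounds for `σ = 1`, lower bounds for `σ = -1` -/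
def OneSided (l : Filter ℝ) (σ : ℝ) : Prop := ∃ C c β₀ : ℝ, 0 < c ∧
  ∀ β : ℝ, β₀ ≤ β → ∀ ε : ℝ, 0 < ε → ∀ᶠ T in l,
    σ * ((pairs T β : ℝ) / (T / (2 * Real.pi) * Real.log T) - gue β) ≤
      C * Real.exp (-(c * β)) + ε

open Pool.Agent.J4H67.OS Pool.Agent.Y744 H370

lemma Xf_eq (T : ℝ) : T / (2 * Real.pi) * Real.log T = Xf T := by unfold Xf; ring

lemma pairs_div {T : ℝ} (hT : 1 < T) (β : ℝ) :
    (pairs T β : ℝ) / (T / (2 * Real.pi) * Real.log T) = Aa T β := by
  rw [pairs_eq hT, Xf_eq, mul_div_cancel_left₀ _ (Xf_pos hT).ne']

/-- **The pair correlation conjecture is equivalent to each of its halves far out, up to an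
exponentially small error, and implies the averaged form of `F(α, T) → 1`; the Riemann hypothesis
is assumed.** -/
theorem result (hRH : RiemannHypothesis) (l : Filter ℝ) (hl : l ≤ atTop) [l.IsCountablyGenerated] :
    (∀ σ : ℝ, σ = 1 ∨ σ = -1 → (OneSided l σ ↔ PairCorrelation l)) ∧
    (PairCorrelation l → ∀ a b : ℝ, 0 < a → a < b →
      Tendsto (fun T => ∫ α in a..b, (F α T).re) l (𝓝 (∫ α in a..b, min α 1))) := by
  have hng : ∀ β, gue β = ng β := fun β => rfl
  have hT1 : ∀ᶠ T in l, 1 < T := hl (eventually_gt_atTop 1)
  refine ⟨fun σ hσ => ⟨?_, ?_⟩, ?_⟩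
  · rintro ⟨C, c, β₀, hc, h⟩
    have hσ' : -σ = 1 ∨ -σ = -1 := by
      rcases hσ with rfl | rfl
      · right; rfl
      · left; norm_num
    have h1 := far hRH hl (s := -σ) (C := max C 0) (c := c) (a0 := max β₀ 1) hσ' (le_max_right _ _)
      hc (lt_of_lt_of_le one_pos (le_max_right _ _)) (fun a ha ε hε => by
        filter_upwards [h a ((le_max_left _ _).trans ha) ε hε, hT1] with T h2 hT
        rw [pairs_div hT, hng, ng_eq (show 0 ≤ a by linarith [(le_max_right β₀ 1).trans ha])] at h2
        have h3 := Real.exp_pos (-(c * a))
        have h4 : C * Real.exp (-(c * a)) ≤ max C 0 * Real.exp (-(c * a)) :=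
          mul_le_mul_of_nonneg_right (le_max_left _ _) h3.le
        linarith)
    intro β hβ
    rw [hng, ng_eq hβ]
    refine (h1 β).congr' ?_
    filter_upwards [hT1] with T hT
    exact (pairs_div hT β).symm
  · intro h
    refine ⟨0, 1, 0, one_pos, fun β hβ ε hε => ?_⟩
    have h1 := Metric.tendsto_nhds.1 (h β hβ) ε hε
    filter_upwards [h1] with T h2
    rw [Real.dist_eq, abs_lt] at h2
    rw [zero_mul, zero_add]
    rcases hσ with rfl | rfl
    · linarith [h2.2]
    · linarith [h2.1]
  · intro h a b ha hab
    have h1 : ∀ t : ℝ, 0 < t → Tendsto (fun T => Bw T t) l (𝓝 (ng t)) := by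
      intro t ht
      refine Bw_of_Aa hl ht.le ?_
      refine (h t ht.le).congr' ?_
      filter_upwards [hT1] with T hT
      exact pairs_div hT t
    refine (win_of_ST hRH hl (fun x hx => ST_of_Bw hRH hl h1 hx) ha (ha.trans hab)).congr' ?_
    filter_upwards [hl (eventually_gt_atTop 0)] with T hT
    exact (intervalIntegral.integral_congr fun α _ => F_re hT α).symm

end Pool.Agent.Results.MP_00e05b_nt.OneSidedFarOut
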