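import Pool.Agent.J4H67.OS.One2
import Pool.Agent.Results.MP_00e05b_nt.OneSidedBounds

/-!
# A single window length is enough

Assume the Riemann hypothesis and let `F(α, T)` be Montgomery's function.  Goldston's form of the pair
correlation conjecture asserts that `∫_b^{b+ℓ} F(α, T) dα → ℓ` for all `b ≥ 1` and *all* `ℓ > 0`.
We show that one length `ℓ`, however large, is enough: if for one fixed `ℓ > 0` and every `b > 0`
`∫_b^{b+ℓ} F(α, T) dα → ∫_b^{b+ℓ} min(α, 1) dα`, then the same holds for all windows.

For `ℓ < 1` this is immediate from Montgomery's theorem on `(0, 1)`.  For `ℓ ≥ 1` the hypothesis alone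
would allow `F - 1` to have, beyond `1`, any part of period `ℓ` and mean zero.

Proof.  Let `S` be a subsequential limit of the second primitives of `F`.  For `h > 0` the function
`k x = S (x + h) - 2 S x + S (x - h) - h ^ 2` is positive definite (`F` is, and the mean `h ^ 2` may be
subtracted), and by the hypothesis it has period `ℓ` for `x ≥ h`.  The Cauchy-Schwarz inequality for
the form of `k` on many translates by multiples of `ℓ` shows that the periodic part takes its maximum
at the multiples of `ℓ` and is even about them.  With `h = ℓ / M` and Montgomery's theorem this gives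
that `S` has the expected values on the lattice `h ℤ`, and `M` is arbitrary.
-/

open MeasureTheory Filter Topology

namespace Pool.Agent.Results.MP_00e05b_nt.OneWindowLength

open Pool.Agent.J4H67.OS Pool.Agent.Y744 H370 OneSidedBounds

/-- **One window length is enough for the pair correlation conjecture**, assuming the Riemann
hypothesis: if for one `ℓ > 0` the integrals of Montgomery's function `F(α, T)` over all the windows
`[b, b + ℓ]`, `b > 0`, have the expected limit, then so have the integrals over all windows `[a, b]`,
`0 < a < b`.  Here `T` tends to infinity along a countably generated filter `l`, for instance along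
`atTop` or along a sequence. -/
theorem result (hRH : RiemannHypothesis) (l : Filter ℝ) (hl : l ≤ atTop) [l.IsCountablyGenerated]
    (ℓ : ℝ) (hℓ : 0 < ℓ)
    (hyp : ∀ b : ℝ, 0 < b → Tendsto (fun T => ∫ α in b..(b + ℓ), (F α T).re) l
      (𝓝 (∫ α in b..(b + ℓ), min α 1))) :
    ∀ a b : ℝ, 0 < a → a < b →
      Tendsto (fun T => ∫ α in a..b, (F α T).re) l (𝓝 (∫ α in a..b, min α 1)) := by
  have conv : ∀ a b : ℝ, (fun T => ∫ α in a..b, (F α T).re) =ᶠ[l] fun T => ∫ α in a..b, Fr T α := by
    intro a b
    filter_upwards [hl (eventually_gt_atTop 0)] with T hT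
    exact intervalIntegral.integral_congr fun α _ => F_re hT α
  have h1 : ∀ b : ℝ, 0 < b → Tendsto (fun T => ∫ α in b..(b + ℓ), Fr T α) l
      (𝓝 (∫ α in b..(b + ℓ), mm α)) := fun b hb => (hyp b hb).congr' (conv _ _)
  intro a b ha hab
  have h2 := win_of_ST hRH hl (fun x hx => one_length hRH hl hℓ h1 hx) ha (ha.trans hab)
  exact h2.congr' (conv _ _).symm

end Pool.Agent.Results.MP_00e05b_nt.OneWindowLength
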